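import Pool.Agent.H41.GW.CB

/-!
# Module CA: bounds over the vectors of norm `n + s`
-/

set_option autoImplicit false

open Finset
open scoped Classical

namespace Pool.Agent.H74.GW

open Pool.Agent.H71.GW Pool.Agent.H41.GW

variable {J : Type} [Fintype J]

/-- the identity `(*)` -/
theorem starA (hpol : T_POL) (hpsi : T_PSI) (u : J → ℕ) (n s : ℕ) (hw : wt u = n + s)
    (g : List ℕ) (κ : J → ℕ) (hn : wt κ ≤ n) :
    ev g s * psi n κ u = ev g (s - ex κ u) * psi n κ u +
      ex κ u * (ev (dd s g) (s - ex κ u) * psi n κ u) := by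
  by_cases h : s < ex κ u
  · rw [hpsi.1 J κ u n s hw hn h]
    simp
  · push Not at h
    have h2 := hpol.2.1 g s (s - ex κ u) (by omega)
    have h3 : s - (s - ex κ u) = ex κ u := by omega
    rw [h3] at h2
    rw [← h2]
    ring

variable (hpol : T_POL) (hbas : T_BAS) (htrn : T_TRN) (hpsi : T_PSI) (hslo : T_SLO)
  (hsup : T_SUP) (hzer : T_ZER)

/-- first part -/
def Q1 (u : J → ℕ) (n s EW E0 k : ℕ) : Prop :=
  ∀ (w : ℕ) (g : List ℕ) (κ : J → ℕ), wt κ ≤ n →
      ((ev g (s - ex κ u) * psi n κ u : ℕ) : ℤ) ≤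
        Up s n EW E0 (fun κ' => (psi n κ' u : ℤ)) k w g κ

/-- second part -/
def Q2 (u : J → ℕ) (n s EW E0 k : ℕ) : Prop :=
  ∀ (w : ℕ) (g : List ℕ) (κ : J → ℕ), wt κ + 2 ≤ n →
      Low s n E0 (fun κ' => (psi n κ' u : ℤ)) (Up s n EW E0 (fun κ' => (psi n κ' u : ℤ)) k) w g κ ≤
        ((ev g (s - ex κ u) * psi n κ u : ℕ) : ℤ)

include hpol hbas htrn hpsi hsup hzer in
theorem q2_of_q1 (u : J → ℕ) (n s EW E0 k : ℕ) (hw : wt u = n + s)
    (hE0 : 1 ≤ E0) (h1 : Q1 u n s EW E0 k) : Q2 u n s EW E0 k := by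
  intro w g κ hκ
  by_cases hle : κ ≤ u
  swap
  · have hz := hzer J (fun κ' => (psi n κ' u : ℤ)) κ
      (fun κ' h' => psi_zero_ge hle κ' h') s n 0 EW E0 k w 0 g
    rw [hz.2.1, psi_zero hle]
    simp
  set b := n - wt κ with hb
  have hb2 : 2 ≤ b := by omega
  set EN := min E0 (b - 1) with hEN
  set ER := min E0 b with hER
  have hEN1 : 1 ≤ EN := by omega
  have hER1 : 1 ≤ ER := by omega
  have hENb : EN + 1 ≤ b := by omega
  have hERb : ER ≤ b := by omega
  set Y := s - ex κ u with hY
  set V : ℕ := ev (dd s g) Y * psi n κ u with hV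
  set Ψ : (J → ℕ) → ℤ := fun κ' => (psi n κ' u : ℤ) with hΨ
  have hκ2 : wt κ ≤ n := by omega
  -- vanishing
  have hvU : ∀ κ' : J → ℕ, ¬ κ' ≤ u → ∀ w' g', Up s n EW E0 Ψ k w' g' κ' = 0 := by
    intro κ' hn w' g'
    exact (hzer J Ψ κ' (fun κ'' h' => psi_zero_ge hn κ'' h') s n 0 EW E0 k w' 0 g').1
  have hvP : ∀ κ' : J → ℕ, ¬ κ' ≤ u → Ψ κ' = 0 := by
    intro κ' hn
    exact psi_zero_ge hn κ' le_rfl
  have hmain := hsup J κ u (V : ℤ) EN ER
    (fun e κ' => if e < EN then Up s n EW E0 Ψ k (w + e) (stN s b e g) κ'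
      else supE s (stN s b e g) * Ψ κ')
    (fun e κ' => if e < ER then Up s n EW E0 Ψ k (w + e) (stR s e g) κ'
      else supE s (stR s e g) * Ψ κ')
    hle (by positivity) hEN1 hER1
    (by
      intro j e hj he1 he2 hle'
      simp only [if_pos he2]
      have h2 := h1 (w + e) (stN s b e g) (κ + Pi.single j (e + 1))
        (by rw [single_wt hbas]; omega)
      refine le_trans ?_ h2
      have h3 := (htrn J κ u n s hw hκ2 j e he1).1 s g hj (by omega) hle'
      rw [← hb, ← hY] at h3
      rw [hV, h3])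
    (by
      intro j hj hle'
      simp only [lt_irrefl, if_false]
      have h3 := (htrn J κ u n s hw hκ2 j EN hEN1).1 s g hj (by omega) hle'
      rw [← hb, ← hY] at h3
      have h4 := sup_step hpol hpsi u n s s hw le_rfl (stN s b EN g)
        (κ + Pi.single j (EN + 1)) (by rw [single_wt hbas]; omega) (u j - (EN + 1))
        (by
          have := le_ex (κ + Pi.single j (EN + 1)) u j (by simp)
          simpa [hj] using this)
      rw [← h3, ← hV] at h4
      simp only [hΨ]
      exact_mod_cast h4)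
    (by
      intro j e hj he1 he2 hn
      simp only [hvU _ hn, hvP _ hn]
      simp)
    (by
      intro j e hj he1 he2 hle'
      simp only [if_pos he2]
      have h2 := h1 (w + e) (stR s e g) (κ + Pi.single j e)
        (by rw [single_wt hbas]; omega)
      refine le_trans ?_ h2
      have h3 := (htrn J κ u n s hw hκ2 j e he1).2.1 s g hj (by omega) hle'
      rw [← hY] at h3
      rw [hV, h3])
    (by
      intro j hj hle'
      simp only [lt_irrefl, if_false]
      have h3 := (htrn J κ u n s hw hκ2 j ER hER1).2.1 s g hj (by omega) hle'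
      rw [← hY] at h3
      have h4 := sup_step hpol hpsi u n s s hw le_rfl (stR s ER g)
        (κ + Pi.single j ER) (by rw [single_wt hbas]; omega) (u j - (κ j + ER))
        (by
          have := le_ex (κ + Pi.single j ER) u j (by simp [hj])
          simpa using this)
      rw [← h3, ← hV] at h4
      simp only [hΨ]
      exact_mod_cast h4)
    (by
      intro j e hj he1 he2 hn
      simp only [hvU _ hn, hvP _ hn]
      simp)
  have hst := starA hpol hpsi u n s hw g κ hκ2
  rw [← hY, ← hV] at hst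
  have hst' : (ev g s : ℤ) * Ψ κ = ((ev g Y * psi n κ u : ℕ) : ℤ) +
      (ex κ u : ℤ) * (V : ℤ) := by
    simp only [hΨ]
    exact_mod_cast hst
  unfold Low
  rw [← hb, ← hEN, ← hER]
  linarith [hmain, hst']

include hpol hbas htrn hpsi hslo hzer in
theorem q1_of_q2 (u : J → ℕ) (n s EW E0 k : ℕ) (hw : wt u = n + s)
    (h2 : Q2 u n s EW E0 k) : Q1 u n s EW E0 (k + 1) := by
  intro w g κ hκ
  by_cases hle : κ ≤ u
  swap
  · have hz := hzer J (fun κ' => (psi n κ' u : ℤ)) κ
      (fun κ' h' => psi_zero_ge hle κ' h') s n 0 EW E0 (k + 1) w 0 g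
    rw [hz.1, psi_zero hle]
    simp
  set b := n - wt κ with hb
  set Y := s - ex κ u with hY
  set V : ℕ := ev (dd s g) Y * psi n κ u with hV
  set Ψ : (J → ℕ) → ℤ := fun κ' => (psi n κ' u : ℤ) with hΨ
  have hvU : ∀ κ' : J → ℕ, ¬ κ' ≤ u → ∀ w' g',
      Low s n E0 Ψ (Up s n EW E0 Ψ k) w' g' κ' = 0 := by
    intro κ' hn w' g'
    exact (hzer J Ψ κ' (fun κ'' h' => psi_zero_ge hn κ'' h') s n 0 EW E0 k w' 0 g').2.1
  have hmain := hslo J κ u (V : ℤ) (EW - w) (EW - w)
    (fun e κ' => if e + 3 ≤ b then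
        Low s n E0 Ψ (Up s n EW E0 Ψ k) (w + e) (stN s b e g) κ' else 0)
    (fun e κ' => if e + 2 ≤ b then
        Low s n E0 Ψ (Up s n EW E0 Ψ k) (w + e) (stR s e g) κ' else 0)
    hle (by positivity)
    (by
      intro j e hj he1 he2 hle'
      by_cases hc : e + 3 ≤ b
      · simp only [if_pos hc]
        have h4 := h2 (w + e) (stN s b e g) (κ + Pi.single j (e + 1))
          (by rw [single_wt hbas]; omega)
        have h3 := (htrn J κ u n s hw hκ j e he1).1 s g hj (by omega) hle'
        rw [← hb, ← hY, ← hV] at h3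
        rw [← h3] at h4
        exact h4
      · simp only [if_neg hc]
        positivity)
    (by
      intro j e hj he1 he2 hn
      simp only [hvU _ hn]
      simp)
    (by
      intro j e hj he1 he2 hle'
      by_cases hc : e + 2 ≤ b
      · simp only [if_pos hc]
        have h4 := h2 (w + e) (stR s e g) (κ + Pi.single j e)
          (by rw [single_wt hbas]; omega)
        have h3 := (htrn J κ u n s hw hκ j e he1).2.1 s g hj (by omega) hle'
        rw [← hY, ← hV] at h3
        rw [← h3] at h4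
        exact h4
      · simp only [if_neg hc]
        positivity)
    (by
      intro j e hj he1 he2 hn
      simp only [hvU _ hn]
      simp)
  have hst := starA hpol hpsi u n s hw g κ hκ
  rw [← hY, ← hV] at hst
  have hst' : (ev g s : ℤ) * Ψ κ = ((ev g Y * psi n κ u : ℕ) : ℤ) +
      (ex κ u : ℤ) * (V : ℤ) := by
    simp only [hΨ]
    exact_mod_cast hst
  unfold Up
  rw [← hb]
  linarith

/-- (CA) -/
theorem ca (hpol : T_POL) (hbas : T_BAS) (htrn : T_TRN) (hpsi : T_PSI) (hslo : T_SLO)
    (hsup : T_SUP) (hzer : T_ZER) : T_CA := by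
  intro J _ u n s EW E0 hw hE0
  have h : ∀ k, Q1 u n s EW E0 k := by
    intro k
    induction k with
    | zero =>
      intro w g κ hκ
      have hst := starA hpol hpsi u n s hw g κ hκ
      unfold Up
      have : ev g (s - ex κ u) * psi n κ u ≤ ev g s * psi n κ u := by
        rw [hst]
        exact Nat.le_add_right _ _
      exact_mod_cast this
    | succ k ih =>
      exact q1_of_q2 hpol hbas htrn hpsi hslo hzer u n s EW E0 k hw
        (q2_of_q1 hpol hbas htrn hpsi hsup hzer u n s EW E0 k hw hE0 ih)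
  exact ⟨fun k => h k, fun k => q2_of_q1 hpol hbas htrn hpsi hsup hzer u n s EW E0 k hw hE0 (h k)⟩

end Pool.Agent.H74.GW
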