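import Pool.Agent.H41.GW.CB

/-!
# Module LV1: first level
-/

set_option autoImplicit false

open Finset
open scoped Classical

namespace Pool.Agent.H74.GW.Lv

open Pool.Agent.H71.GW Pool.Agent.H41.GW

variable {J : Type} [Fintype J]

theorem mvs_neg (κ : J → ℕ) (EN ER : ℕ) (GN GR : ℕ → (J → ℕ) → ℤ) :
    - mvs κ EN ER GN GR = mvs κ EN ER (fun e κ' => - GN e κ') (fun e κ' => - GR e κ') := by
  unfold mvs
  rw [← Finset.sum_neg_distrib]
  refine Finset.sum_congr rfl fun j _ => ?_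
  split_ifs
  · rw [Finset.sum_neg_distrib]
  · rw [Finset.sum_neg_distrib]

/-- common part of both claims -/
theorem level (hpol : T_POL) (hbas : T_BAS) (htrn : T_TRN) (hpsi : T_PSI) (hsup : T_SUP)
    (κ u : J → ℕ) (s a E0 t : ℕ) (ha : 1 ≤ a) (hE0 : 1 ≤ E0)
    (hκ : wt κ + a = s + 1) (hw : wt u = (s + 2) + t) (ht : t ≤ s) (hle : κ ≤ u)
    (A : ℕ → List ℕ → (J → ℕ) → ℤ)
    (h1 : ∀ (e : ℕ) (g : List ℕ) (κ' : J → ℕ), wt κ' ≤ s + 2 → κ' ≤ u →
      ((ev g (t - ex κ' u) * psi (s + 2) κ' u : ℕ) : ℤ) ≤ A e g κ')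
    (h2 : ∀ (e : ℕ) (g : List ℕ) (κ' : J → ℕ), ¬ κ' ≤ u → A e g κ' = 0) :
    ((ex κ u * psi (s + 1) κ u : ℕ) : ℤ) ≤ mvs κ (min E0 a) (min E0 (a + 1))
      (fun e κ' => if e < min E0 a then A e (g1N a e) κ'
        else supE s (g1N a e) * (psi (s + 2) κ' u : ℤ))
      (fun e κ' => if e < min E0 (a + 1) then A e (g1R e) κ'
        else supE s (g1R e) * (psi (s + 2) κ' u : ℤ)) := by
  set EN := min E0 a with hEN
  set ER := min E0 (a + 1) with hER
  have hEN1 : 1 ≤ EN := by omega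
  have hER1 : 1 ≤ ER := by omega
  have hENb : EN ≤ a := by omega
  have hERb : ER ≤ a + 1 := by omega
  set V : ℕ := psi (s + 1) κ u with hV
  set Ψ : (J → ℕ) → ℤ := fun κ' => (psi (s + 2) κ' u : ℤ) with hΨ
  have hκ2 : wt κ ≤ s + 2 := by omega
  have hκ3 : wt κ + a + 1 = s + 2 := by omega
  have hvP : ∀ κ' : J → ℕ, ¬ κ' ≤ u → Ψ κ' = 0 := by
    intro κ' hn
    exact psi_zero_ge hn κ' le_rfl
  have hmain := hsup J κ u (V : ℤ) EN ER
    (fun e κ' => if e < EN then A e (g1N a e) κ' else supE s (g1N a e) * Ψ κ')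
    (fun e κ' => if e < ER then A e (g1R e) κ' else supE s (g1R e) * Ψ κ')
    hle (by positivity) hEN1 hER1
    (by
      intro j e hj he1 he2 hle'
      simp only [if_pos he2]
      have h4 := h1 e (g1N a e) (κ + Pi.single j (e + 1))
        (by rw [single_wt hbas]; omega) hle'
      refine le_trans ?_ h4
      have h3 := (htrn J κ u (s + 2) t hw hκ2 j e he1).2.2.1 a hκ3 hj (by omega) hle'
      rw [show s + 2 - 1 = s + 1 from rfl] at h3
      rw [hV, h3])
    (by
      intro j hj hle'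
      simp only [lt_irrefl, if_false]
      have h3 := (htrn J κ u (s + 2) t hw hκ2 j EN hEN1).2.2.1 a hκ3 hj (by omega) hle'
      rw [show s + 2 - 1 = s + 1 from rfl] at h3
      have h4 := sup_step hpol hpsi u (s + 2) s t hw ht (g1N a EN)
        (κ + Pi.single j (EN + 1)) (by rw [single_wt hbas]; omega) (u j - (EN + 1))
        (by
          have := le_ex (κ + Pi.single j (EN + 1)) u j (by simp)
          simpa [hj] using this)
      rw [← h3, ← hV] at h4
      simp only [hΨ]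
      exact_mod_cast h4)
    (by
      intro j e hj he1 he2 hn
      simp only [h2 _ _ _ hn, hvP _ hn]
      simp)
    (by
      intro j e hj he1 he2 hle'
      simp only [if_pos he2]
      have h4 := h1 e (g1R e) (κ + Pi.single j e)
        (by rw [single_wt hbas]; omega) hle'
      refine le_trans ?_ h4
      have h3 := (htrn J κ u (s + 2) t hw hκ2 j e he1).2.2.2 a hκ3 hj (by omega) hle'
      rw [show s + 2 - 1 = s + 1 from rfl] at h3
      rw [hV, h3])
    (by
      intro j hj hle'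
      simp only [lt_irrefl, if_false]
      have h3 := (htrn J κ u (s + 2) t hw hκ2 j ER hER1).2.2.2 a hκ3 hj (by omega) hle'
      rw [show s + 2 - 1 = s + 1 from rfl] at h3
      have h4 := sup_step hpol hpsi u (s + 2) s t hw ht (g1R ER)
        (κ + Pi.single j ER) (by rw [single_wt hbas]; omega) (u j - (κ j + ER))
        (by
          have := le_ex (κ + Pi.single j ER) u j (by simp [hj])
          simpa using this)
      rw [← h3, ← hV] at h4
      simp only [hΨ]
      exact_mod_cast h4)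
    (by
      intro j e hj he1 he2 hn
      simp only [h2 _ _ _ hn, hvP _ hn]
      simp)
  push_cast
  exact hmain

/-- the key inequality of the second claim -/
theorem key (hpsi : T_PSI) (hca : T_CA) (hcb : T_CB) (u : J → ℕ) (s EW E0 k : ℕ) (hs : 1 ≤ s)
    (hE0 : 1 ≤ E0) (hw : wt u = 2 * s + 1) (e : ℕ) (g : List ℕ) (κ : J → ℕ)
    (hκ : wt κ ≤ s + 2) :
    ((ev g (s - 1 - ex κ u) * psi (s + 2) κ u : ℕ) : ℤ) ≤
      Up s (s + 2) EW E0 (fun κ' => (psi (s + 2) κ' u : ℤ)) k e g κ -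
        GG s EW E0 k (fun κ' => (psi (s + 1) κ' u : ℤ)) e g κ := by
  have h1 := (hcb J u s EW E0 hw hs hE0).1 k e g κ hκ
  unfold GG
  by_cases hc : e ≤ 2 ∧ 3 ≤ s + 2 - wt κ
  · rw [if_pos hc]
    have h2 := (hca J u (s + 1) s EW E0 (by omega) hE0).2 0 e (0 :: dd s g) κ (by omega)
    have h3 := hpsi.2 J κ u s hw (by omega)
    have h4 : ev (0 :: dd s g) (s - ex κ u) * psi (s + 1) κ u =
        ev (dd s g) (s - 1 - ex κ u) * psi (s + 2) κ u := by
      rw [h3]
      have h5 : ev (0 :: dd s g) (s - ex κ u) =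
          0 + (s - ex κ u) * ev (dd s g) (s - ex κ u - 1) := rfl
      rw [h5, show s - ex κ u - 1 = s - 1 - ex κ u by omega]
      ring
    rw [h4] at h2
    push_cast at h1 h2 ⊢
    linarith
  · rw [if_neg hc]
    have h5 : (0 : ℤ) ≤ ((ev (dd s g) (s - 1 - ex κ u) * psi (s + 2) κ u : ℕ) : ℤ) :=
      by positivity
    push_cast at h1 h5 ⊢
    linarith

/-- (LV1) -/
theorem lv1 (hpol : T_POL) (hbas : T_BAS) (htrn : T_TRN) (hpsi : T_PSI) (hsup : T_SUP)
    (hzer : T_ZER) (hca : T_CA) (hcb : T_CB) : T_LV1 := by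
  intro J _ κ u s a EW E0 k hs ha hE0 hκ
  by_cases hle : κ ≤ u
  swap
  · have hz := hzer J (fun κ' => (psi (s + 2) κ' u : ℤ)) κ
      (fun κ' h' => psi_zero_ge hle κ' h') s (s + 2) a EW E0 k 0 0 []
    have hz' := hzer J (fun κ' => (psi (s + 1) κ' u : ℤ)) κ
      (fun κ' h' => psi_zero_ge hle κ' h') s (s + 2) a EW E0 k 0 0 []
    rw [hz.2.2.2.2.1, hz'.2.2.2.2.2.2, psi_zero hle]
    simp
  have hvU : ∀ κ' : J → ℕ, ¬ κ' ≤ u → ∀ w' g',
      Up s (s + 2) EW E0 (fun κ' => (psi (s + 2) κ' u : ℤ)) k w' g' κ' = 0 := by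
    intro κ' hn w' g'
    exact (hzer J _ κ' (fun κ'' h' => psi_zero_ge hn κ'' h') s (s + 2) 0 EW E0 k w' 0 g').1
  have hvG : ∀ κ' : J → ℕ, ¬ κ' ≤ u → ∀ e' g',
      GG s EW E0 k (fun κ' => (psi (s + 1) κ' u : ℤ)) e' g' κ' = 0 := by
    intro κ' hn e' g'
    exact (hzer J _ κ' (fun κ'' h' => psi_zero_ge hn κ'' h') s (s + 2) 0 EW E0 k 0 e'
      g').2.2.2.2.2.1
  refine ⟨fun hw => ?_, fun hw => ?_⟩
  · exact level hpol hbas htrn hpsi hsup κ u s a E0 s ha hE0 hκ (by omega) le_rfl hle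
      (fun e g κ' => Up s (s + 2) EW E0 (fun κ' => (psi (s + 2) κ' u : ℤ)) k e g κ')
      (fun e g κ' h3 h4 => (hca J u (s + 2) s EW E0 (by omega) hE0).1 k e g κ' h3)
      (fun e g κ' hn => hvU κ' hn e g)
  · have h1 := level hpol hbas htrn hpsi hsup κ u s a E0 (s - 1) ha hE0 hκ (by omega) (by omega)
      hle (fun e g κ' => Up s (s + 2) EW E0 (fun κ' => (psi (s + 2) κ' u : ℤ)) k e g κ' -
        GG s EW E0 k (fun κ' => (psi (s + 1) κ' u : ℤ)) e g κ')
      (fun e g κ' h3 h4 => key hpsi hca hcb u s EW E0 k hs hE0 hw e g κ' h3)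
      (fun e g κ' hn => by
        rw [hvU κ' hn e g, hvG κ' hn e g, sub_zero])
    have h2 : UP s a EW E0 k (fun κ' => (psi (s + 2) κ' u : ℤ)) κ -
        GAIN s a EW E0 k (fun κ' => (psi (s + 1) κ' u : ℤ)) κ =
        mvs κ (min E0 a) (min E0 (a + 1))
          (fun e κ' => if e < min E0 a then
            Up s (s + 2) EW E0 (fun κ' => (psi (s + 2) κ' u : ℤ)) k e (g1N a e) κ' -
              GG s EW E0 k (fun κ' => (psi (s + 1) κ' u : ℤ)) e (g1N a e) κ'
            else supE s (g1N a e) * (psi (s + 2) κ' u : ℤ))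
          (fun e κ' => if e < min E0 (a + 1) then
            Up s (s + 2) EW E0 (fun κ' => (psi (s + 2) κ' u : ℤ)) k e (g1R e) κ' -
              GG s EW E0 k (fun κ' => (psi (s + 1) κ' u : ℤ)) e (g1R e) κ'
            else supE s (g1R e) * (psi (s + 2) κ' u : ℤ)) := by
      unfold UP GAIN
      rw [sub_eq_add_neg, mvs_neg, mvs_add_pred]
      congr 1
      · funext e κ'
        split_ifs
        · ring
        · ring
      · funext e κ'
        split_ifs
        · ring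
        · ring
    linarith

end Pool.Agent.H74.GW.Lv
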