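import Pool.Agent.H55.GW.Targets2

/-!
CMP: one component carries almost all real elements, by helper74.
-/

set_option autoImplicit false

namespace Pool.Agent.H74.GW

open Pool.Agent.H55.GW

theorem cmp (hLAMU : T_LAMU) : T_CMP := by
  intro M F m hrep hm K f₀ hlam hcard
  have hEF : M.E = (F.E : Set ℕ) := hrep.1
  have hfin : M.E.Finite := hEF ▸ F.E.finite_toSet
  let rel : ℕ → ℕ → Prop := fun r s => RIn F.G (Sum.inr '' (K : Set ℕ))ᶜ (Sum.inl r) (Sum.inl s)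
  have hrefl : ∀ r, rel r r := fun r => RIn.refl (by
    rintro ⟨x, _, hx⟩
    exact Sum.inr_ne_inl hx)
  have hsymm : ∀ r s, rel r s → rel s r := fun r s h =>
    (RIn.rev h).mono (fun u v huv _ _ => Frame.G_symm huv) subset_rfl
  have htrans : ∀ r s t, rel r s → rel s t → rel r t := fun r s t h h' => RIn.trans h h'
  -- unions of classes
  have key : ∀ Z ⊆ M.E, (∀ r ∈ Z, ∀ s ∈ M.E, rel r s → s ∈ Z) → lam M Z ≤ 2 * K.card := by
    intro Z hZ hcl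
    have h1 := hLAMU F M m hrep hm Z hZ (K.image Sum.inr) (K.image Sum.inr) ?_ ?_
    · rw [Finset.card_image_of_injective _ Sum.inr_injective] at h1
      omega
    · rintro _ ⟨r, ⟨hrZ, -⟩, rfl⟩ _ ⟨s, ⟨hsb, hsZ⟩, rfl⟩ h
      rw [Finset.coe_image] at h
      apply hsZ
      refine hcl r hrZ s ?_ (h.mono (fun u v huv _ _ => Frame.D_G huv) subset_rfl)
      rw [hEF]
      exact Frame.base_subset hsb
    · rintro _ ⟨r, ⟨⟨hrE, hrZ⟩, -⟩, rfl⟩ _ ⟨s, ⟨hsb, hsZ⟩, rfl⟩ h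
      rw [Finset.coe_image] at h
      apply hrZ
      exact hcl s hsZ r hrE (hsymm _ _ (h.mono (fun u v huv _ _ => Frame.D_G huv) subset_rfl))
  have hex : ∃ n, ∃ Z ⊆ M.E, (∀ r ∈ Z, ∀ s ∈ M.E, rel r s → s ∈ Z) ∧ Z.ncard = n ∧ f₀ < n :=
    ⟨M.E.ncard, M.E, subset_rfl, fun _ _ s hs _ => hs, rfl, by omega⟩
  classical
  obtain ⟨Z, hZE, hZcl, hZn, hZf⟩ := Nat.find_spec hex
  have hmin : ∀ Z' ⊆ M.E, (∀ r ∈ Z', ∀ s ∈ M.E, rel r s → s ∈ Z') → Z'.ncard < Z.ncard →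
      Z'.ncard ≤ f₀ := by
    intro Z' h1 h2 h3
    by_contra h4
    rw [hZn] at h3
    exact Nat.find_min hex h3 ⟨Z', h1, h2, rfl, not_le.1 h4⟩
  have hZfin : Z.Finite := hfin.subset hZE
  rw [← hZn] at hZf
  have hcomp : (M.E \ Z).ncard ≤ f₀ := by
    rcases hlam Z hZE (key Z hZE hZcl) with h | h
    · omega
    · exact h
  have hZE' : Z.ncard + (M.E \ Z).ncard = M.E.ncard := by
    rw [add_comm]
    exact Set.ncard_sdiff_add_ncard_of_subset hZE hfin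
  have hne : Z.Nonempty := by
    rw [← Set.ncard_pos hZfin]
    omega
  obtain ⟨r, hr⟩ := hne
  let C : Set ℕ := {s | s ∈ M.E ∧ rel r s}
  have hCE : C ⊆ M.E := fun s hs => hs.1
  have hCcl : ∀ s ∈ C, ∀ t ∈ M.E, rel s t → t ∈ C := fun s hs t ht hst =>
    ⟨ht, htrans _ _ _ hs.2 hst⟩
  have hCZ : C ⊆ Z := fun s hs => hZcl r hr s hs.1 hs.2
  have hrC : r ∈ C := ⟨hZE hr, hrefl r⟩
  have h1 : (Z \ C).ncard ≤ f₀ := by
    refine hmin (Z \ C) (Set.sdiff_subset.trans hZE) ?_ ?_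
    · rintro s ⟨hs, hsC⟩ t ht hst
      refine ⟨hZcl s hs t ht hst, fun htC => hsC ?_⟩
      exact hCcl t htC s (hZE hs) (hsymm _ _ hst)
    · exact Set.ncard_lt_ncard (Set.ssubset_iff_subset_ne.2 ⟨Set.sdiff_subset, fun h => by
        have : r ∈ Z \ C := by
          rw [h]
          exact hr
        exact this.2 hrC⟩) hZfin
  have h2 : (Z \ C).ncard + C.ncard = Z.ncard :=
    Set.ncard_sdiff_add_ncard_of_subset hCZ hZfin
  refine ⟨r, hZE hr, ?_⟩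
  have h3 : {s | s ∈ M.E ∧ ¬ RIn F.G (Sum.inr '' (K : Set ℕ))ᶜ (Sum.inl r) (Sum.inl s)} =
      M.E \ C := by
    ext s
    constructor
    · rintro ⟨h3, h4⟩
      exact ⟨h3, fun h5 => h4 h5.2⟩
    · rintro ⟨h3, h4⟩
      exact ⟨h3, fun h5 => h4 ⟨h3, h5⟩⟩
  rw [h3]
  rcases hlam C hCE (key C hCE hCcl) with h | h
  · omega
  · exact h

end Pool.Agent.H74.GW
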