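import Mathlib
import Pool.Agent.H55.GW.Targets3

/-!
# RS: the lemma on trees

Minimal bad sequence argument, by downward induction on the level.
-/

set_option autoImplicit false

namespace Pool.Agent.H74.GW

open Pool.Agent.H55.GW Set

/-- finite trees over `P` and the leaves, all nodes of label at least `k` -/
inductive TT {N : Type} (leaf : N → Prop) (ch : Bool → N → N) (lab : N → ℕ) (k : ℕ)
    (P : Set N) : N → Prop
  | p (e : N) : e ∈ P → TT leaf ch lab k P e
  | l (e : N) : leaf e → TT leaf ch lab k P e
  | n (e : N) : ¬ leaf e → k ≤ lab e → TT leaf ch lab k P (ch true e) →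
      TT leaf ch lab k P (ch false e) → TT leaf ch lab k P e

section

variable {N K : Type} [Finite K] {L : ℕ} {leaf : N → Prop} {ch : Bool → N → N}
  {sz lab : N → ℕ} {kd : N → K} {le : N → N → Prop}

theorem rs_leaf (hl : ∀ e f, leaf e → leaf f → kd e = kd f → le e f) :
    ({e | leaf e} : Set N).PartiallyWellOrderedOn le := by
  rw [partiallyWellOrderedOn_iff_exists_lt]
  intro f hf
  obtain ⟨i, j, hij, h⟩ := Finite.exists_ne_map_eq_of_infinite (fun n => kd (f n))
  rcases lt_or_gt_of_ne hij with h1 | h1
  · exact ⟨i, j, h1, hl _ _ (hf i) (hf j) h⟩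
  · exact ⟨j, i, h1, hl _ _ (hf j) (hf i) h.symm⟩

theorem rs_node [IsPreorder N le] {W : Set N} (hW : W.PartiallyWellOrderedOn le)
    (hn : ∀ e f, ¬ leaf e → ¬ leaf f → kd e = kd f → (∀ b, le (ch b e) (ch b f)) → le e f)
    (s : ℕ → N) (h1 : ∀ n, ¬ leaf (s n)) (h2 : ∀ n b, ch b (s n) ∈ W) :
    ∃ i j, i < j ∧ le (s i) (s j) := by
  obtain ⟨g, hg⟩ := hW.exists_monotone_subseq (f := fun n => ch true (s n))
    (fun n => h2 n true)
  obtain ⟨g', hg'⟩ := hW.exists_monotone_subseq (f := fun n => ch false (s (g n)))
    (fun n => h2 _ false)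
  obtain ⟨i, j, hij, h⟩ := Finite.exists_ne_map_eq_of_infinite (fun n => kd (s (g (g' n))))
  have key : ∀ i j, i < j → kd (s (g (g' i))) = kd (s (g (g' j))) →
      ∃ i j, i < j ∧ le (s i) (s j) := by
    intro i j hlt h
    refine ⟨g (g' i), g (g' j), g.strictMono (g'.strictMono hlt), hn _ _ (h1 _) (h1 _) h ?_⟩
    intro b
    cases b
    · exact hg' i j hlt.le
    · exact hg _ _ (g'.monotone hlt.le)
  rcases lt_or_gt_of_ne hij with h1 | h1
  · exact key i j h1 h
  · exact key j i h1 h.symm

theorem desc_sz (hs : ∀ e b, ¬ leaf e → sz (ch b e) < sz e) {k : ℕ} {e f : N}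
    (h : Desc leaf ch lab k e f) : sz f < sz e := by
  induction h with
  | one b h => exact hs _ _ h
  | more f b _ h _ ih => exact (hs _ _ h).trans ih

theorem rs_claim [IsPreorder N le] (hL : ∀ e, lab e < L)
    (hs : ∀ e b, ¬ leaf e → sz (ch b e) < sz e)
    (hl : ∀ e f, leaf e → leaf f → kd e = kd f → le e f)
    (hn : ∀ e f, ¬ leaf e → ¬ leaf f → kd e = kd f → (∀ b, le (ch b e) (ch b f)) → le e f)
    (hd : ∀ e f, Desc leaf ch lab (lab e) e f → lab f = lab e → le f e) :
    ∀ d k, k + d = L → ∀ P : Set N, P.PartiallyWellOrderedOn le →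
      ({e | TT leaf ch lab k P e} : Set N).PartiallyWellOrderedOn le := by
  intro d
  induction d with
  | zero =>
    intro k hk P hP
    refine (hP.union (rs_leaf hl)).mono ?_
    intro e he
    rcases he with ⟨_, h⟩ | ⟨_, h⟩ | ⟨_, _, h, _, _⟩
    · exact Or.inl h
    · exact Or.inr h
    · exact absurd (hL e) (by omega)
  | succ d ih =>
    intro k hk P hP
    set Q : Set N := {e | TT leaf ch lab k P e ∧ lab e = k} with hQdef
    by_cases hQ : Q.PartiallyWellOrderedOn le
    · refine (ih (k + 1) (by omega) (P ∪ Q) (hP.union hQ)).mono ?_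
      intro e he
      change TT leaf ch lab k P e at he
      induction he with
      | p e h => exact TT.p e (Or.inl h)
      | l e h => exact TT.l e h
      | n e h1 h2 h3 h4 ih1 ih2 =>
        by_cases h5 : lab e = k
        · exact TT.p e (Or.inr ⟨TT.n e h1 h2 h3 h4, h5⟩)
        · exact TT.n e h1 (by omega) ih1 ih2
    · exfalso
      rw [Set.PartiallyWellOrderedOn.iff_forall_not_isBadSeq] at hQ
      push Not at hQ
      obtain ⟨e, hbad, hmin⟩ :=
        Set.PartiallyWellOrderedOn.exists_min_bad_of_exists_bad le sz Q hQ
      set Q' : Set N := {f | ∃ i, Desc leaf ch lab k (e i) f ∧ lab f = k ∧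
        TT leaf ch lab k P f} with hQ'def
      have hQ' : Q'.PartiallyWellOrderedOn le := by
        rw [Set.PartiallyWellOrderedOn.iff_forall_not_isBadSeq]
        intro f hf
        choose i hi using hf.1
        set j0 := Function.argmin i with hj0
        have hj0min : ∀ j, i j0 ≤ i j := fun j => Function.argmin_le i j
        refine hmin (i j0) (fun n => if n < i j0 then e n else f (j0 + (n - i j0))) ?_ ?_ ?_
        · intro m hm
          simp [hm]
        · simp only [lt_irrefl, if_false, Nat.sub_self, Nat.add_zero]
          exact desc_sz hs (hi j0).1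
        · constructor
          · intro n
            dsimp only
            split_ifs with h
            · exact hbad.1 n
            · exact ⟨(hi _).2.2, (hi _).2.1⟩
          · intro m n hmn
            dsimp only
            split_ifs with h1 h2 h2
            · exact hbad.2 m n hmn
            · intro hle
              set b := j0 + (n - i j0) with hb
              have h3 : le (f b) (e (i b)) := by
                have h4 : lab (e (i b)) = k := (hbad.1 (i b)).2
                apply hd
                · rw [h4]; exact (hi b).1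
                · rw [h4]; exact (hi b).2.1
              exact hbad.2 m (i b) (lt_of_lt_of_le h1 (hj0min b))
                (_root_.trans hle h3)
            · omega
            · exact hf.2 _ _ (by omega)
      have hW := ih (k + 1) (by omega) (P ∪ Q') (hP.union hQ')
      have hch : ∀ i c, TT leaf ch lab k P c → Desc leaf ch lab k (e i) c →
          TT leaf ch lab (k + 1) (P ∪ Q') c := by
        intro i c hc
        induction hc with
        | p e h => intro _; exact TT.p e (Or.inl h)
        | l e h => intro _; exact TT.l e h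
        | n c h1 h2 h3 h4 ih1 ih2 =>
          intro hD
          by_cases h5 : lab c = k
          · exact TT.p c (Or.inr ⟨i, hD, h5, TT.n c h1 h2 h3 h4⟩)
          · have h6 : k < lab c := by omega
            exact TT.n c h1 h6 (ih1 (Desc.more _ _ _ hD h1 h6))
              (ih2 (Desc.more _ _ _ hD h1 h6))
      obtain ⟨k1, hk1⟩ := (hP.union (rs_leaf hl)).exists_notMem_of_gt hbad.2
      have hleaf : ∀ n, ¬ leaf (e (k1 + 1 + n)) := fun n h =>
        hk1 (k1 + 1 + n) (by omega) (Or.inr h)
      have hnP : ∀ n, e (k1 + 1 + n) ∉ P := fun n h =>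
        hk1 (k1 + 1 + n) (by omega) (Or.inl h)
      obtain ⟨i, j, hij, hle⟩ := rs_node hW hn (fun n => e (k1 + 1 + n)) hleaf (by
        intro n b
        have h1 := (hbad.1 (k1 + 1 + n)).1
        have h2 : TT leaf ch lab k P (ch b (e (k1 + 1 + n))) := by
          rcases h1 with ⟨_, h⟩ | ⟨_, h⟩ | ⟨_, _, _, h3, h4⟩
          · exact absurd h (hnP n)
          · exact absurd h (hleaf n)
          · cases b
            · exact h4
            · exact h3
        exact hch _ _ h2 (Desc.one _ _ (hleaf n)))
      exact hbad.2 _ _ (by omega) hle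

end

/-- RS: the lemma on trees -/
theorem rs : T_RS := by
  intro N K hK L leaf ch sz lab kd le hrefl htrans hL hs hl hn hd s
  have : IsPreorder N le := { refl := hrefl, trans := htrans }
  have h := rs_claim hL hs hl hn hd L 0 (by omega) ∅
    (Set.partiallyWellOrderedOn_empty le)
  have hall : ∀ n e, sz e < n → TT leaf ch lab 0 (∅ : Set N) e := by
    intro n
    induction n with
    | zero => intro e he; omega
    | succ n ih =>
      intro e he
      by_cases hle : leaf e
      · exact TT.l e hle
      · exact TT.n e hle (Nat.zero_le _) (ih _ (lt_of_lt_of_le (hs e true hle) (by omega)))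
          (ih _ (lt_of_lt_of_le (hs e false hle) (by omega)))
  exact h.exists_lt (fun n => hall (sz (s n) + 1) (s n) (by omega))

end Pool.Agent.H74.GW
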