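import Mathlib
import Pool.Agent.H55.GW.Targets3

/-!
# STA: states stabilise

The relation of having equal rows, read on the states, decreases along good windows, so it
is constant on one of them.
-/

set_option autoImplicit false

namespace Pool.Agent.H74.GW

open Pool.Agent.H55.GW Set

/-- STA: states stabilise -/
theorem sta : T_STA := by
  intro σ k R
  set H : ℕ := 2 ^ (2 ^ σ * 2 ^ k) with hH
  set m : ℕ := H * H + 2 with hm
  refine ⟨(R + 1) * m, ?_⟩
  intro T hT M X Ξ St Ct bad hΞ hS1 hbase hX hXE hbf hbR hwin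
  by_contra hcon
  push Not at hcon
  set S0 : Set (Set ℕ × Set (Fin k)) := (𝒫 (Ξ : Set ℕ)) ×ˢ (Set.univ) with hS0
  have hS0f : S0.Finite := (Ξ.finite_toSet.finite_subsets).prod Set.finite_univ
  have hS0c : S0.ncard ≤ 2 ^ σ * 2 ^ k := by
    rw [hS0, Set.ncard_prod, Set.ncard_powerset _ Ξ.finite_toSet, Set.ncard_coe_finset,
      Set.ncard_univ, Nat.card_eq_fintype_card, Fintype.card_set, Fintype.card_fin]
    exact Nat.mul_le_mul_right _ (Nat.pow_le_pow_right (by norm_num) hΞ)
  have hStS : ∀ i A, St i A ∈ 𝒫 S0 := by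
    intro i A p hp
    exact ⟨hS1 i A p hp, Set.mem_univ _⟩
  have hPf : (𝒫 S0).Finite := hS0f.finite_subsets
  have hPc : (𝒫 S0).ncard ≤ H := by
    rw [Set.ncard_powerset _ hS0f]
    exact Nat.pow_le_pow_right (by norm_num) hS0c
  set E : ℕ → Set (Set (Set ℕ × Set (Fin k)) × Set (Set ℕ × Set (Fin k))) := fun i =>
    {q | ∃ A ⊆ X i, ∃ A' ⊆ X i, q = (St i A, St i A') ∧ row M (X i) A = row M (X i) A'}
    with hE
  have hEsub : ∀ i, E i ⊆ (𝒫 S0) ×ˢ (𝒫 S0) := by
    rintro i _ ⟨A, _, A', _, rfl, _⟩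
    exact ⟨hStS i A, hStS i A'⟩
  have hEf : ∀ i, (E i).Finite := fun i => (hPf.prod hPf).subset (hEsub i)
  have hEc : ∀ i, (E i).ncard ≤ H * H := by
    intro i
    refine (Set.ncard_le_ncard (hEsub i) (hPf.prod hPf)).trans ?_
    rw [Set.ncard_prod]
    exact Nat.mul_le_mul hPc hPc
  have hrowSt : ∀ i ≤ T, ∀ A ⊆ X i, ∀ A' ⊆ X i, St i A = St i A' →
      row M (X i) A = row M (X i) A' := by
    intro i hi A hA A' hA' h
    ext U
    constructor
    · rintro ⟨hU, hB⟩
      refine ⟨hU, ?_⟩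
      rw [hbase i hi A' hA' U hU, ← h, ← hbase i hi A hA U hU]
      exact hB
    · rintro ⟨hU, hB⟩
      refine ⟨hU, ?_⟩
      rw [hbase i hi A hA U hU, h, ← hbase i hi A' hA' U hU]
      exact hB
  -- one good window
  have hstep : ∀ i < T, i ∉ bad → (E (i + 1)).ncard + 1 ≤ (E i).ncard := by
    intro i hi hib
    obtain ⟨C, hC, hCst⟩ := hwin i hi hib
    have hXX := hX i hi
    have hrow : ∀ A ⊆ X (i + 1), ∀ A' ⊆ X (i + 1),
        row M (X (i + 1)) A = row M (X (i + 1)) A' →
        row M (X i) (A ∪ C) = row M (X i) (A' ∪ C) := by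
      intro A hA A' hA' h
      have key : ∀ B : Set ℕ, ∀ U, U ∈ row M (X i) (B ∪ C) ↔
          U ⊆ M.E \ X i ∧ C ∪ U ∈ row M (X (i + 1)) B := by
        intro B U
        constructor
        · rintro ⟨h1, h2⟩
          refine ⟨h1, ?_, by rwa [← Set.union_assoc]⟩
          rintro x (hx | hx)
          · exact ⟨hXE i hi.le (hC hx).1, (hC hx).2⟩
          · exact ⟨(h1 hx).1, fun h3 => (h1 hx).2 (hXX h3)⟩
        · rintro ⟨h1, h2, h3⟩
          exact ⟨h1, by rwa [Set.union_assoc]⟩
      ext U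
      rw [key, key, h]
    have hsub : E (i + 1) ⊆ E i := by
      rintro _ ⟨A, hA, A', hA', rfl, h⟩
      have hAC : ∀ B : Set ℕ, B ⊆ X (i + 1) → B ∪ C ⊆ X i := fun B hB =>
        Set.union_subset (hB.trans hXX) (fun x hx => (hC hx).1)
      refine ⟨A ∪ C, hAC A hA, A' ∪ C, hAC A' hA', ?_, hrow A hA A' hA' h⟩
      rw [hCst A hA, hCst A' hA']
    by_contra hlt
    push Not at hlt
    have heq : E (i + 1) = E i :=
      Set.eq_of_subset_of_ncard_le hsub (by omega) (hEf i)
    apply hcon i hi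
    refine ⟨C, hC, ?_⟩
    intro A hA A' hA' h
    have hAC : ∀ B : Set ℕ, B ⊆ X (i + 1) → B ∪ C ⊆ X i := fun B hB =>
      Set.union_subset (hB.trans hXX) (fun x hx => (hC hx).1)
    have h1 : (St i (A ∪ C), St i (A' ∪ C)) ∈ E i :=
      ⟨A ∪ C, hAC A hA, A' ∪ C, hAC A' hA', rfl, h⟩
    rw [← heq] at h1
    obtain ⟨B, hB, B', hB', h2, h3⟩ := h1
    rw [hCst A hA, hCst A' hA', Prod.mk.injEq] at h2
    rw [hrowSt (i + 1) hi A hA B hB h2.1, h3, ← hrowSt (i + 1) hi A' hA' B' hB' h2.2]
  -- every block contains a bad window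
  have hblock : ∀ j : Fin (R + 1), ∃ b ∈ bad, b / m = j := by
    intro j
    by_contra hno
    push Not at hno
    have hjT : ((j : ℕ) + 1) * m ≤ T :=
      (Nat.mul_le_mul_right m (by omega)).trans hT
    have hind : ∀ l ≤ m, (E ((j : ℕ) * m + l)).ncard + l ≤ H * H := by
      intro l
      induction l with
      | zero => intro _; exact hEc _
      | succ l ih =>
        intro hl
        have h1 := ih (by omega)
        have h2 : (j : ℕ) * m + l < T := by
          have : ((j : ℕ) + 1) * m = (j : ℕ) * m + m := by ring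
          omega
        have h3 : (j : ℕ) * m + l ∉ bad := by
          intro hb
          apply hno _ hb
          rw [Nat.div_eq_iff (by omega)]
          constructor
          · omega
          · omega
        have h4 := hstep _ h2 h3
        have h5 : (j : ℕ) * m + (l + 1) = (j : ℕ) * m + l + 1 := by ring
        rw [h5]
        omega
    have := hind m le_rfl
    omega
  choose b hb1 hb2 using hblock
  have hinj : Function.Injective b := by
    intro j j' h
    apply Fin.ext
    rw [← hb2 j, ← hb2 j', h]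
  have h1 : (Set.range b).ncard ≤ bad.ncard :=
    Set.ncard_le_ncard (by rintro _ ⟨j, rfl⟩; exact hb1 j) hbf
  have h2 : (Set.range b).ncard = R + 1 := by
    rw [← Set.image_univ, Set.ncard_image_of_injective _ hinj, Set.ncard_univ,
      Nat.card_eq_fintype_card, Fintype.card_fin]
  omega

end Pool.Agent.H74.GW
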