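import Mathlib
import Pool.Agent.H55.GW.Targets3

/-!
# LAB: labelling a linked decomposition

Rows are renumbered only at the steps without a transfer.
-/

set_option autoImplicit false

namespace Pool.Agent.H74.GW

open Pool.Agent.H55.GW Set

theorem row_union {M : Matroid ℕ} {D P Z A A' : Set ℕ} (hDP : D ⊆ P) (hP : P ⊆ M.E)
    (hZ : Z ⊆ P \ D) (h : row M D A = row M D A') : row M P (A ∪ Z) = row M P (A' ∪ Z) := by
  have key : ∀ B : Set ℕ, ∀ U, U ∈ row M P (B ∪ Z) ↔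
      U ⊆ M.E \ P ∧ Z ∪ U ∈ row M D B := by
    intro B U
    constructor
    · rintro ⟨h1, h2⟩
      refine ⟨h1, ?_, by rwa [← Set.union_assoc]⟩
      rintro x (hx | hx)
      · exact ⟨hP (hZ hx).1, (hZ hx).2⟩
      · exact ⟨(h1 hx).1, fun h3 => (h1 hx).2 (hDP h3)⟩
    · rintro ⟨h1, h2, h3⟩
      exact ⟨h1, by rwa [Set.union_assoc]⟩
  ext U
  rw [key, key, h]

theorem exists_num {C : ℕ} {M : Matroid ℕ} {D : Set ℕ} (hD : D.Finite) (hC : rowc M D ≤ C) :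
    ∃ ν : Set ℕ → ℕ, (∀ A ⊆ D, ν A ≤ C) ∧
      ∀ A ⊆ D, ∀ A' ⊆ D, (ν A = ν A' ↔ row M D A = row M D A') := by
  classical
  set R := row M D '' {A | A ⊆ D} with hR
  have hRf : R.Finite := (hD.finite_subsets).image _
  have := hRf.to_subtype
  have hcard : Nat.card R ≤ C := hC
  let e : R ≃ Fin (Nat.card R) := Finite.equivFin R
  refine ⟨fun A => if h : row M D A ∈ R then (e ⟨row M D A, h⟩ : ℕ) else 0, ?_, ?_⟩
  · intro A _
    dsimp only
    split_ifs with h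
    · exact (le_of_lt (e ⟨row M D A, h⟩).2).trans hcard
    · exact Nat.zero_le _
  · intro A hA A' hA'
    have h1 : row M D A ∈ R := ⟨A, hA, rfl⟩
    have h2 : row M D A' ∈ R := ⟨A', hA', rfl⟩
    simp only [h1, h2, dif_pos]
    constructor
    · intro h
      have h3 := e.injective (Fin.ext h)
      exact congrArg Subtype.val h3
    · intro h
      congr 2
      exact Subtype.ext h

section

variable (M : Matroid ℕ) (𝒟 : Set (Set ℕ)) (ν : Set ℕ → Set ℕ → ℕ)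

/-- `P` is the smallest member above `D` of value at most that of `D`, and has the same
value -/
def Stp (D P : Set ℕ) : Prop := P ∈ 𝒟 ∧ D ⊂ P ∧ lam M P = lam M D ∧
  (∀ Q ∈ 𝒟, D ⊂ Q → Q ⊂ P → lam M D < lam M Q) ∧ (M.E \ P).ncard < (M.E \ D).ncard

open Classical in
/-- number of bad steps above `D`, and numbering of the rows of `D` -/
noncomputable def tr (D : Set ℕ) : ℕ × (Set ℕ → ℕ) :=
  if h : ∃ P, Stp M 𝒟 D P then
    if h' : Trf M D h.choose then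
      ((tr h.choose).1, fun A => (tr h.choose).2 (A ∪ h'.choose))
    else ((tr h.choose).1 + 1, ν D)
  else (0, ν D)
termination_by (M.E \ D).ncard
decreasing_by all_goals exact h.choose_spec.2.2.2.2

theorem tr_spec (D : Set ℕ) :
    ((¬ ∃ P, Stp M 𝒟 D P) ∧ (tr M 𝒟 ν D).1 = 0 ∧ (tr M 𝒟 ν D).2 = ν D) ∨
    (∃ P, Stp M 𝒟 D P ∧ (∃ Z ⊆ P \ D, (∀ A ⊆ D, ∀ A' ⊆ D,
      row M P (A ∪ Z) = row M P (A' ∪ Z) → row M D A = row M D A') ∧
        ∀ A, (tr M 𝒟 ν D).2 A = (tr M 𝒟 ν P).2 (A ∪ Z)) ∧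
        (tr M 𝒟 ν D).1 = (tr M 𝒟 ν P).1) ∨
    ∃ P, Stp M 𝒟 D P ∧ ¬ Trf M D P ∧ (tr M 𝒟 ν D).1 = (tr M 𝒟 ν P).1 + 1 ∧
      (tr M 𝒟 ν D).2 = ν D := by
  classical
  by_cases h : ∃ P, Stp M 𝒟 D P
  · right
    by_cases h' : Trf M D h.choose
    · left
      have h1 : tr M 𝒟 ν D = ((tr M 𝒟 ν h.choose).1,
          fun A => (tr M 𝒟 ν h.choose).2 (A ∪ h'.choose)) := by
        rw [tr, dif_pos h, dif_pos h']
      refine ⟨h.choose, h.choose_spec, ⟨h'.choose, h'.choose_spec.1, h'.choose_spec.2, ?_⟩, ?_⟩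
      · intro A
        rw [h1]
      · rw [h1]
    · right
      have h1 : tr M 𝒟 ν D = ((tr M 𝒟 ν h.choose).1 + 1, ν D) := by
        rw [tr, dif_pos h, dif_neg h']
      refine ⟨h.choose, h.choose_spec, h', ?_, ?_⟩
      · rw [h1]
      · rw [h1]
  · left
    have h1 : tr M 𝒟 ν D = (0, ν D) := by
      rw [tr, dif_neg h]
    exact ⟨h, by rw [h1], by rw [h1]⟩

end

section

variable {M : Matroid ℕ} {𝒟 : Set (Set ℕ)} {ν : Set ℕ → Set ℕ → ℕ}

theorem stp_induct {mo : Set ℕ → Prop}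
    (h : ∀ D ∈ 𝒟, (∀ P, Stp M 𝒟 D P → mo P) → mo D) : ∀ D ∈ 𝒟, mo D := by
  have key : ∀ n, ∀ D ∈ 𝒟, (M.E \ D).ncard < n → mo D := by
    intro n
    induction n with
    | zero => intro D _ h; omega
    | succ n ih =>
      intro D hD hn
      exact h D hD (fun P hP => ih P hP.1 (lt_of_lt_of_le hP.2.2.2.2 (by omega)))
  intro D hD
  exact key _ D hD (Nat.lt_succ_self _)

theorem stp_unique {f : Set ℕ → ℕ} {k : ℕ} (hDec : Dec f k M.E 𝒟) {D P P' : Set ℕ}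
    (hD : D ∈ 𝒟) (h : Stp M 𝒟 D P) (h' : Stp M 𝒟 D P') : P = P' := by
  obtain ⟨x, hx⟩ := hDec.ne D hD
  rcases hDec.lam P h.1 P' h'.1 with h1 | h1 | h1
  · by_contra hne
    have := h'.2.2.2.1 P h.1 h.2.1 (LE.le.ssubset_of_ne h1 hne)
    rw [h.2.2.1] at this
    exact lt_irrefl _ this
  · by_contra hne
    have := h.2.2.2.1 P' h'.1 h'.2.1 (LE.le.ssubset_of_ne h1 (Ne.symm hne))
    rw [h'.2.2.1] at this
    exact lt_irrefl _ this
  · exact absurd (h'.2.1.subset hx) (Set.disjoint_left.1 h1 (h.2.1.subset hx))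

theorem chain_between {f : Set ℕ → ℕ} {k : ℕ} (hDec : Dec f k M.E 𝒟) {D P Q : Set ℕ}
    (hD : D ∈ 𝒟) (h : Stp M 𝒟 D P) (hQ : Q ∈ 𝒟) (hDQ : D ⊆ Q) :
    P ⊆ Q ∨ lam M D ≤ lam M Q := by
  obtain ⟨x, hx⟩ := hDec.ne D hD
  rcases hDec.lam P h.1 Q hQ with h1 | h1 | h1
  · exact Or.inl h1
  · by_cases hQP : Q = P
    · exact Or.inl (hQP ▸ subset_rfl)
    · right
      by_cases hQD : D = Q
      · rw [hQD]
      · exact (h.2.2.2.1 Q hQ (LE.le.ssubset_of_ne hDQ hQD)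
          (LE.le.ssubset_of_ne h1 hQP)).le
  · exact absurd (hDQ hx) (Set.disjoint_left.1 h1 (h.2.1.subset hx))

theorem chain_bad {f : Set ℕ → ℕ} {k : ℕ} (hDec : Dec f k M.E 𝒟) : ∀ D ∈ 𝒟,
    ∃ X : ℕ → Set ℕ, (∀ i < (tr M 𝒟 ν D).1, X i ∈ 𝒟 ∧ D ⊆ X i ∧ lam M (X i) = lam M D ∧
      ∃ P, Stp M 𝒟 (X i) P ∧ ¬ Trf M (X i) P ∧ ∀ j < i, P ⊆ X j) ∧
      (∀ i, i + 1 < (tr M 𝒟 ν D).1 → X (i + 1) ⊂ X i) ∧
      ∀ Q ∈ 𝒟, D ⊆ Q → Q ⊆ X 0 → lam M D ≤ lam M Q := by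
  refine stp_induct (M := M) (mo := fun D =>
    ∃ X : ℕ → Set ℕ, (∀ i < (tr M 𝒟 ν D).1, X i ∈ 𝒟 ∧ D ⊆ X i ∧ lam M (X i) = lam M D ∧
      ∃ P, Stp M 𝒟 (X i) P ∧ ¬ Trf M (X i) P ∧ ∀ j < i, P ⊆ X j) ∧
      (∀ i, i + 1 < (tr M 𝒟 ν D).1 → X (i + 1) ⊂ X i) ∧
      ∀ Q ∈ 𝒟, D ⊆ Q → Q ⊆ X 0 → lam M D ≤ lam M Q) ?_
  intro D hD ih
  rcases tr_spec M 𝒟 ν D with ⟨_, h0, _⟩ | ⟨P, hP, _, ht⟩ | ⟨P, hP, hT, ht, _⟩
  · refine ⟨fun _ => D, ?_, ?_, ?_⟩
    · intro i hi; omega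
    · intro i hi; omega
    · intro Q _ h1 h2
      rw [Set.Subset.antisymm h1 h2]
  · obtain ⟨X, h1, h2, h3⟩ := ih P hP
    refine ⟨X, ?_, ?_, ?_⟩
    · intro i hi
      obtain ⟨g1, g2, g3, g4⟩ := h1 i (by omega)
      exact ⟨g1, hP.2.1.subset.trans g2, g3.trans hP.2.2.1, g4⟩
    · intro i hi
      exact h2 i (by omega)
    · intro Q hQ g1 g2
      rcases chain_between hDec hD hP hQ g1 with g3 | g3
      · rw [← hP.2.2.1]; exact h3 Q hQ g3 g2
      · exact g3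
  · obtain ⟨X, h1, h2, h3⟩ := ih P hP
    refine ⟨fun i => if i < (tr M 𝒟 ν P).1 then X i else D, ?_, ?_, ?_⟩
    · intro i hi
      by_cases hi' : i < (tr M 𝒟 ν P).1
      · obtain ⟨g1, g2, g3, P', g4, g5, g6⟩ := h1 i hi'
        simp only [hi', if_true]
        refine ⟨g1, hP.2.1.subset.trans g2, g3.trans hP.2.2.1, P', g4, g5, ?_⟩
        intro j hj
        simp only [hj.trans hi', if_true]
        exact g6 j hj
      · simp only [hi', if_false]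
        refine ⟨hD, subset_rfl, trivial, P, hP, hT, ?_⟩
        intro j hj
        have hj' : j < (tr M 𝒟 ν P).1 := by omega
        simp only [hj', if_true]
        exact (h1 j hj').2.1
    · intro i hi
      have hi' : i < (tr M 𝒟 ν P).1 := by omega
      simp only [hi', if_true]
      by_cases hi2 : i + 1 < (tr M 𝒟 ν P).1
      · simp only [hi2, if_true]
        exact h2 i hi2
      · simp only [hi2, if_false]
        exact hP.2.1.trans_subset (h1 i hi').2.1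
    · intro Q hQ g1 g2
      by_cases h0 : 0 < (tr M 𝒟 ν P).1
      · simp only [h0, if_true] at g2
        rcases chain_between hDec hD hP hQ g1 with g3 | g3
        · rw [← hP.2.2.1]; exact h3 Q hQ g3 g2
        · exact g3
      · simp only [h0, if_false] at g2
        rw [Set.Subset.antisymm g1 g2]

theorem exists_stp {f : Set ℕ → ℕ} {k : ℕ} (hE : M.E.Finite) (hDec : Dec f k M.E 𝒟)
    {D' D : Set ℕ} (hD : D ∈ 𝒟) (hss : D' ⊂ D) (hlam : lam M D' = lam M D)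
    (hge : ∀ P ∈ 𝒟, D' ⊂ P → P ⊂ D → lam M D ≤ lam M P) :
    ∃ P, Stp M 𝒟 D' P ∧ P ⊆ D := by
  classical
  set S : Set (Set ℕ) := {P | P ∈ 𝒟 ∧ D' ⊂ P ∧ P ⊆ D ∧ lam M P = lam M D} with hS
  have hSf : S.Finite := hE.finite_subsets.subset (fun P hP => hDec.sub P hP.1)
  have hSne : S.Nonempty := ⟨D, hD, hss, subset_rfl, rfl⟩
  obtain ⟨P, hP⟩ := hSf.exists_minimal hSne
  refine ⟨P, ⟨hP.prop.1, hP.prop.2.1, hP.prop.2.2.2.trans hlam.symm, ?_, ?_⟩, hP.prop.2.2.1⟩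
  · intro Q hQ h1 h2
    have h3 : Q ⊂ D := h2.trans_subset hP.prop.2.2.1
    have h4 := hge Q hQ h1 h3
    rw [hlam]
    rcases h4.lt_or_eq with h5 | h5
    · exact h5
    · exfalso
      have h6 : Q ∈ S := ⟨hQ, h1, h3.subset, h5.symm⟩
      exact h2.not_subset (hP.le_of_le h6 h2.subset)
  · apply Set.ncard_lt_ncard _ (hE.subset Set.sdiff_subset)
    obtain ⟨x, hx, hx'⟩ := Set.exists_of_ssubset hP.prop.2.1
    refine ⟨Set.sdiff_subset_sdiff_right hP.prop.2.1.subset, fun h => ?_⟩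
    exact (h ⟨hDec.sub P hP.prop.1 hx, hx'⟩).2 hx

end

/-- LAB: labelling a decomposition -/
theorem lab : T_LAB := by
  intro C N k M 𝒟 hE hDec hrow hchain
  have hfin : ∀ D ∈ 𝒟, D.Finite := fun D hD => hE.subset (hDec.sub D hD)
  choose! ν hν1 hν2 using fun D (hD : D ∈ 𝒟) => exists_num (hfin D hD) (hrow D hD)
  have ht : ∀ D ∈ 𝒟, (tr M 𝒟 ν D).1 ≤ N := by
    intro D hD
    by_contra hlt
    push Not at hlt
    obtain ⟨X, h1, h2, h3⟩ := chain_bad (ν := ν) hDec D hD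
    obtain ⟨i, j, hij, hj, C', hC', hT⟩ := hchain X
      (fun i hi => ⟨(h1 i (by omega)).1, by
        rw [(h1 i (by omega)).2.2.1, (h1 0 (by omega)).2.2.1]⟩)
      (fun i hi => h2 i (by omega))
      (fun P hP g1 g2 => by
        rw [(h1 0 (by omega)).2.2.1]
        exact h3 P hP ((h1 N (by omega)).2.1.trans g1) g2)
    obtain ⟨_, _, _, P, hP, hnT, hPj⟩ := h1 j (by omega)
    have hPi := hPj i hij
    have hXi : X i ⊆ M.E := hDec.sub _ (h1 i (by omega)).1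
    apply hnT
    refine ⟨C' ∩ P, fun x hx => ⟨hx.2, (hC' hx.1).2⟩, ?_⟩
    intro A hA A' hA' h
    apply hT A hA A' hA'
    have h4 : ∀ B : Set ℕ, B ∪ C' = B ∪ C' ∩ P ∪ C' \ P := by
      intro B
      rw [Set.union_assoc, Set.inter_union_sdiff]
    rw [h4 A, h4 A']
    exact row_union hPi hXi (fun x hx => ⟨(hC' hx.1).1, hx.2⟩) h
  refine ⟨fun D => (tr M 𝒟 ν D).2, fun D => (tr M 𝒟 ν D).1, ht, ?_, ?_, ?_⟩
  · refine stp_induct (M := M) (mo := fun D => ∀ A ⊆ D, (tr M 𝒟 ν D).2 A ≤ C) ?_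
    intro D hD ih A hA
    rcases tr_spec M 𝒟 ν D with ⟨_, _, h⟩ | ⟨P, hP, ⟨Z, hZ, _, h⟩, _⟩ | ⟨P, _, _, _, h⟩
    · rw [h]; exact hν1 D hD A hA
    · rw [h]
      exact ih P hP (A ∪ Z) (Set.union_subset (hA.trans hP.2.1.subset)
        (fun x hx => (hZ hx).1))
    · rw [h]; exact hν1 D hD A hA
  · refine stp_induct (M := M) (mo := fun D => ∀ A ⊆ D, ∀ A' ⊆ D,
      ((tr M 𝒟 ν D).2 A = (tr M 𝒟 ν D).2 A' ↔ row M D A = row M D A')) ?_
    intro D hD ih A hA A' hA'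
    rcases tr_spec M 𝒟 ν D with ⟨_, _, h⟩ | ⟨P, hP, ⟨Z, hZ, hT, h⟩, _⟩ | ⟨P, _, _, _, h⟩
    · rw [h]; exact hν2 D hD A hA A' hA'
    · rw [h, h]
      have hsub : ∀ B : Set ℕ, B ⊆ D → B ∪ Z ⊆ P := fun B hB =>
        Set.union_subset (hB.trans hP.2.1.subset) (fun x hx => (hZ hx).1)
      rw [ih P hP (A ∪ Z) (hsub A hA) (A' ∪ Z) (hsub A' hA')]
      exact ⟨hT A hA A' hA', row_union hP.2.1.subset (hDec.sub P hP.1) hZ⟩
    · rw [h]; exact hν2 D hD A hA A' hA'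
  · intro D' hD' D hD hss hl hbet
    have htD := ht D hD
    have htD' := ht D' hD'
    have hdec : ∀ a b c d : ℕ, b ≤ N → d ≤ N → a * (N + 1) + b < c * (N + 1) + d →
        a < c ∨ (a = c ∧ b < d) := by
      intro a b c d hb hd h
      rcases lt_trichotomy a c with h1 | h1 | h1
      · exact Or.inl h1
      · subst h1
        exact Or.inr ⟨rfl, by omega⟩
      · exfalso
        have h2 : (c + 1) * (N + 1) ≤ a * (N + 1) := Nat.mul_le_mul_right _ h1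
        have h3 : (c + 1) * (N + 1) = c * (N + 1) + N + 1 := by ring
        omega
    have heq : lam M D' = lam M D ∧ (tr M 𝒟 ν D').1 = (tr M 𝒟 ν D).1 := by
      have hl' : lam M D' * (N + 1) + (tr M 𝒟 ν D').1 =
          lam M D * (N + 1) + (tr M 𝒟 ν D).1 := hl
      rcases lt_trichotomy (lam M D') (lam M D) with h1 | h1 | h1
      · exfalso
        have h2 : (lam M D' + 1) * (N + 1) ≤ lam M D * (N + 1) := Nat.mul_le_mul_right _ h1
        have h3 : (lam M D' + 1) * (N + 1) = lam M D' * (N + 1) + N + 1 := by ring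
        omega
      · refine ⟨h1, ?_⟩
        rw [h1] at hl'
        omega
      · exfalso
        have h2 : (lam M D + 1) * (N + 1) ≤ lam M D' * (N + 1) := Nat.mul_le_mul_right _ h1
        have h3 : (lam M D + 1) * (N + 1) = lam M D * (N + 1) + N + 1 := by ring
        omega
    have hbet' : ∀ P ∈ 𝒟, D' ⊂ P → P ⊂ D → lam M D < lam M P ∨
        (lam M D = lam M P ∧ (tr M 𝒟 ν D).1 < (tr M 𝒟 ν P).1) := by
      intro P hP h1 h2
      exact hdec _ _ _ _ htD (ht P hP) (hbet P hP h1 h2)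
    obtain ⟨P, hP, hPD⟩ := exists_stp hE hDec hD hss heq.1 (by
      intro P hP h1 h2
      rcases hbet' P hP h1 h2 with h | h
      · exact h.le
      · exact h.1.le)
    have hPeq : P = D := by
      by_contra hne
      have h1 := hbet' P hP.1 hP.2.1 (LE.le.ssubset_of_ne hPD hne)
      have h2 : (tr M 𝒟 ν D).1 < (tr M 𝒟 ν P).1 := by
        rcases h1 with h | h
        · exfalso
          rw [hP.2.2.1, heq.1] at h
          exact lt_irrefl _ h
        · exact h.2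
      rcases tr_spec M 𝒟 ν D' with ⟨h, _, _⟩ | ⟨P', hP', _, h⟩ | ⟨P', hP', _, h, _⟩
      · exact h ⟨P, hP⟩
      · rw [stp_unique hDec hD' hP' hP] at h
        omega
      · rw [stp_unique hDec hD' hP' hP] at h
        omega
    subst hPeq
    rcases tr_spec M 𝒟 ν D' with ⟨h, _, _⟩ | ⟨P', hP', ⟨Z, hZ, _, h⟩, _⟩ | ⟨P', hP', _, h, _⟩
    · exact absurd ⟨P, hP⟩ h
    · have h1 := stp_unique hDec hD' hP' hP
      subst h1
      exact ⟨Z, hZ, fun A _ => (h A).symm⟩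
    · exfalso
      rw [stp_unique hDec hD' hP' hP] at h
      omega

end Pool.Agent.H74.GW
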