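import Pool.Agent.H16.GW.Targets
import Pool.Agent.H90.GA.CBas
import Pool.Agent.H91.GA.RRN

/-!
Row NRM of the board gwf: the normalised convolution of a form with a bump function.
-/

set_option autoImplicit false

namespace Pool.Agent.H74.GW

open MeasureTheory Set Filter Topology
open Pool.Agent.H34.GM Pool.Agent.H34.GZ Pool.Agent.H34.GU Pool.Agent.H34.GA
open Pool.Agent.H46.GU (cs cR_det fz wd fz_eq fn_meas wd_meas dom_det)
open Pool.Agent.H90.GA
open Pool.Agent.H91.GA (rrn_inv rrn_scal rrn_mass)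
open scoped ENNReal

/-- linear combinations of forms -/
theorem hec_lin {m N : ℕ} [NeZero N] {T : ℕ → Finset (ZM m)} {F G : Mat m → VN m N → ℂ}
    {lam : ℕ → ℂ} (hG : HecA m N T G lam) (hF : HecA m N T F lam) (c : ℂ) :
    HecA m N T (fun g x => G g x - c * F g x) lam where
  cont := fun x => (hG.cont x).sub (continuousOn_const.mul (hF.cont x))
  supp := fun g x hx => by
    show G g x - c * F g x = 0
    rw [hG.supp g x hx, hF.supp g x hx, mul_zero, sub_zero]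
  auto := fun γ hγ g x hg => by
    show G _ _ - c * F _ _ = _
    rw [hG.auto γ hγ g x hg, hF.auto γ hγ g x hg]
  scal := fun r hr g x hg => by
    show G _ _ - c * F _ _ = _
    rw [hG.scal r hr g x hg, hF.scal r hr g x hg]
  hecke := fun n hn g x hg => by
    show ∑ α ∈ T n, (G _ _ - c * F _ _) = _
    rw [Finset.sum_sub_distrib, ← Finset.mul_sum, hG.hecke n hn g x hg, hF.hecke n hn g x hg]
    ring
  bdd := by
    obtain ⟨B1, h1⟩ := hG.bdd
    obtain ⟨B2, h2⟩ := hF.bdd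
    refine ⟨B1 + ‖c‖ * B2, fun g x hg => ?_⟩
    refine (norm_sub_le _ _).trans (add_le_add (h1 g x hg) ?_)
    rw [norm_mul]
    exact mul_le_mul_of_nonneg_left (h2 g x hg) (norm_nonneg _)

/-- multiples of cusp forms -/
theorem cus_smul {m N : ℕ} [NeZero N] {T : ℕ → Finset (ZM m)} {F : Mat m → VN m N → ℂ}
    {lam : ℕ → ℂ} (hF : CusB m N T F lam) (c : ℂ) :
    CusB m N T (fun g x => c * F g x) lam where
  cont := fun x => continuousOn_const.mul (hF.cont x)
  supp := fun g x hx => by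
    show c * F g x = 0
    rw [hF.supp g x hx, mul_zero]
  auto := fun γ hγ g x hg => by
    show c * F _ _ = _
    rw [hF.auto γ hγ g x hg]
  scal := fun r hr g x hg => by
    show c * F _ _ = _
    rw [hF.scal r hr g x hg]
  hecke := fun n hn g x hg => by
    show ∑ α ∈ T n, c * F _ _ = _
    rw [← Finset.mul_sum, hF.hecke n hn g x hg]
    ring
  bdd := by
    obtain ⟨B2, h2⟩ := hF.bdd
    refine ⟨‖c‖ * B2, fun g x hg => ?_⟩
    rw [norm_mul]
    exact mul_le_mul_of_nonneg_left (h2 g x hg) (norm_nonneg _)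
  prim := fun v hv g hg => by
    have h := hF.prim v hv g hg
    have h1 : ∑ y, psn N (dt v y) * (c * F g y) = c * ∑ y, psn N (dt v y) * F g y := by
      rw [Finset.mul_sum]
      exact Finset.sum_congr rfl fun y _ => by ring
    rw [h1, h, mul_zero]
  cusp := fun k hk hkm g x hg => by
    show ∫ u in Set.Icc (0 : V m) 1, c * F ((1 + (N : ℝ) • nk k u) * g) x = 0
    rw [integral_const_mul, hF.cusp k hk hkm g x hg, mul_zero]

theorem dcy_smul {m N : ℕ} {F : Mat m → VN m N → ℂ} (hF : Dcy F) (c : ℂ) :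
    Dcy (fun g x => c * F g x) := by
  obtain ⟨B, hB⟩ := hF
  refine ⟨‖c‖ * B, fun b n a k hs i j hij x => ?_⟩
  rw [norm_mul, mul_assoc]
  exact mul_le_mul_of_nonneg_left (hB b n a k hs i j hij x) (norm_nonneg _)

section norms

variable {m N : ℕ} [NeZero N] {T : ℕ → Finset (ZM m)} {D : Set (V m)}
  {G : Mat m → VN m N → ℂ} {lam : ℕ → ℂ}

theorem int_tr (hV : T_VLM) (hS : SysZ m N T D) (hG : HecA m N T G lam) {w : Mat m}
    (hw : w.det ≠ 0) (x : VN m N) :
    Integrable (fun z : V m => ‖G ((mt z : Mat m) * w) x‖ ^ 2) ((hm m).restrict D) := by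
  have hm1 := hS.one_le
  have hD := hS.dom
  have hfin := fin_D hV hm1 hD
  obtain ⟨B, hB⟩ := hG.bdd
  refine int_sq hD (meas_F hm1 hD (hG.cont x) hw) (A := B) fun z hz => hB _ x ?_
  rw [Matrix.det_mul]
  exact mul_ne_zero (det_ne_D hm1 hD hz) hw

theorem int_df (hV : T_VLM) (hS : SysZ m N T D) (hG : HecA m N T G lam) {w : Mat m}
    (hw : w.det ≠ 0) (x : VN m N) :
    Integrable (fun z : V m => ‖G ((mt z : Mat m) * w) x - G (mt z) x‖ ^ 2)
      ((hm m).restrict D) := by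
  have hm1 := hS.one_le
  have hD := hS.dom
  have hfin := fin_D hV hm1 hD
  obtain ⟨B, hB⟩ := hG.bdd
  refine int_sq hD ((meas_F hm1 hD (hG.cont x) hw).sub (meas_F1 hm1 hD (hG.cont x)))
    (A := B + B) fun z hz => ?_
  refine (norm_sub_le _ _).trans (add_le_add (hB _ x ?_) (hB _ x (det_ne_D hm1 hD hz)))
  rw [Matrix.det_mul]
  exact mul_ne_zero (det_ne_D hm1 hD hz) hw

theorem nU_lint (hV : T_VLM) (hS : SysZ m N T D) (hG : HecA m N T G lam) {w : Mat m}
    (hw : w.det ≠ 0) :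
    ENNReal.ofReal (∑ x, ∫ z in D, ‖G ((mt z : Mat m) * w) x‖ ^ 2 ∂(hm m)) =
      ∑ x, ∫⁻ z in D, ENNReal.ofReal (‖G ((mt z : Mat m) * w) x‖ ^ 2) ∂(hm m) := by
  rw [ENNReal.ofReal_sum_of_nonneg fun x _ => integral_nonneg fun z => by positivity]
  refine Finset.sum_congr rfl fun x _ => ?_
  exact ofReal_integral_eq_lintegral_ofReal (int_tr hV hS hG hw x)
    (Eventually.of_forall fun z => by positivity)

theorem lint_tr (hM : T_MSR) (hRTI : T_RTI) (hALU : T_ALU) (hS : SysZ m N T D)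
    (hG : HecA m N T G lam) {w : Mat m} (hw : w.det ≠ 0) :
    ∑ x, ∫⁻ z in D, ENNReal.ofReal (‖G ((mt z : Mat m) * w) x‖ ^ 2) ∂(hm m) =
      ∑ x, ∫⁻ z in D, ENNReal.ofReal (‖G (mt z) x‖ ^ 2) ∂(hm m) := by
  have hm1 := hS.one_le
  have hD := hS.dom
  have hc : ∀ x, ContinuousOn (fun g => G g x) {g | g.det ≠ 0} := hG.cont
  have hbij := hALU m N hm1 hS.two_le
  rw [rrn_mass hM hm1 hD hc]
  have htm : Measurable fun z : V m => ((fun i j => ((mt z : Mat m) * w) i j) : V m) := by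
    have h2 : Continuous (fun z : V m => (mt z : Mat m) * w) :=
      Pool.Agent.H34.GM.th1_cmt.matrix_mul continuous_const
    have h4 : Continuous fun z : V m => ((fun i j => ((mt z : Mat m) * w) i j) : V m) :=
      continuous_pi fun i => continuous_pi fun j => h2.matrix_elem i j
    exact h4.measurable
  have h3 : ∀ x : VN m N, ∫⁻ z in D, ENNReal.ofReal (‖G ((mt z : Mat m) * w) x‖ ^ 2) ∂(hm m) =
      ∫⁻ z in D, ENNReal.ofReal ‖fz G x (fun i j => ((mt z : Mat m) * w) i j)‖ ^ 2 ∂(hm m) := fun x => by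
    refine setLIntegral_congr_fun hD.meas fun z hz => ?_
    show ENNReal.ofReal (‖G ((mt z : Mat m) * w) x‖ ^ 2) =
      ENNReal.ofReal ‖fz G x (fun i j => ((mt z : Mat m) * w) i j)‖ ^ 2
    have hd : (mt ((fun i j => ((mt z : Mat m) * w) i j) : V m)).det ≠ 0 := by
      show ((mt z : Mat m) * w).det ≠ 0
      rw [Matrix.det_mul]
      exact mul_ne_zero (dom_det hm1 hD hz) hw
    rw [fz_eq G x hd, ENNReal.ofReal_pow (norm_nonneg _)]
    rfl
  rw [Finset.sum_congr rfl fun x _ => h3 x]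
  have hme : ∀ x : VN m N, Measurable fun z : V m =>
      ENNReal.ofReal ‖fz G x (fun i j => ((mt z : Mat m) * w) i j)‖ ^ 2 :=
    fun x => ((fn_meas hM hc x).comp htm).pow_const 2
  rw [← lintegral_finsetSum _ fun x _ => hme x]
  exact hRTI m hm1 D hD (wd G) (wd_meas hM hc)
    (fun γ hγ z hz => rrn_inv hG hγ (hbij.2.2.2.2.2 γ hγ) hz)
    (fun c hc z hz => rrn_scal hG hc hz) w hw

theorem nU_tr (hV : T_VLM) (hM : T_MSR) (hRTI : T_RTI) (hALU : T_ALU) (hS : SysZ m N T D)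
    (hG : HecA m N T G lam) {w : Mat m} (hw : w.det ≠ 0) :
    ∑ x, ∫ z in D, ‖G ((mt z : Mat m) * w) x‖ ^ 2 ∂(hm m) = nU D G := by
  have h1 := nU_lint hV hS hG hw
  have h2 := nU_lint hV hS hG (w := 1) (by simp)
  simp only [mul_one] at h2
  rw [lint_tr hM hRTI hALU hS hG hw, ← h2] at h1
  have p1 : 0 ≤ ∑ x, ∫ z in D, ‖G ((mt z : Mat m) * w) x‖ ^ 2 ∂(hm m) :=
    Finset.sum_nonneg fun x _ => integral_nonneg fun z => by positivity
  have p2 : 0 ≤ ∑ x, ∫ z in D, ‖G (mt z) x‖ ^ 2 ∂(hm m) :=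
    Finset.sum_nonneg fun x _ => integral_nonneg fun z => by positivity
  exact (ENNReal.ofReal_eq_ofReal_iff p1 p2).1 h1

end norms

/-- NRM -/
theorem pf_NRM (hRRC : T_RRC) (hDCA : T_DCA) (hAPR : T_APR) (hNZU : T_NZU) (hRTI : T_RTI)
    (hALU : T_ALU) (hM : T_MSR) (hV : T_VLM) (hBIA : T_BIA) (hTBA : T_TBA) :
    Pool.Agent.H16.GW.T_NRM := by
  intro m χ hm1 hχ
  obtain ⟨c0, hc0, hA⟩ := hAPR m χ hm1 hχ
  obtain ⟨CB, -, hB⟩ := hBIA m χ hm1 hχ
  obtain ⟨ct, Ct, A, hct, -, hTB⟩ := hTBA m χ hm1 hχ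
  have hm0 : (1 : ℝ) ≤ m := by exact_mod_cast hm1
  have hmp : (0 : ℝ) < m := by linarith
  refine ⟨min c0 (min (1 / 400) (1 / (4 * m))), by positivity, ?_⟩
  intro N _ T D hS F lam hF hn P δ hL hP hδ hδ2 hδP
  have e0 : δ * (1 + P) ≤ c0 := hδP.trans (min_le_left _ _)
  have e1 : δ * (1 + P) ≤ 1 / 400 := hδP.trans ((min_le_right _ _).trans (min_le_left _ _))
  have e2 : δ * (1 + P) ≤ 1 / (4 * m) := hδP.trans ((min_le_right _ _).trans (min_le_right _ _))
  have hδP0 : 0 ≤ δ * P := by positivity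
  have e3 : δ * P ≤ 1 / 400 := by nlinarith
  have e4 : δ ≤ 1 / (4 * m) := by nlinarith
  have e5 : m * δ ≤ 1 / 4 := by
    rw [le_div_iff₀ (by positivity)] at e4
    linarith
  set t := tb m χ δ with htb
  have ht0 : 0 < t := lt_of_lt_of_le (by positivity) (hTB δ hδ hδ2).1
  have hTg : Tg m (bi m χ δ) := (hB δ hδ hδ2).1.toTg
  -- the convolution
  obtain ⟨F1, hF1d⟩ : ∃ F1 : Mat m → VN m N → ℂ, F1 = fun g x => Rr (bi m χ δ) 1 F g x :=
    ⟨_, rfl⟩
  have hF1 : CusB m N T F1 lam := by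
    rw [hF1d]
    exact hRRC m N T D hS F lam hF _ hTg
  have hDc : Dcy F1 := by
    rw [hF1d]
    exact hDCA m N T D hS F lam hF χ δ hχ hδ hδ2
  obtain ⟨E, hEd⟩ : ∃ E : Mat m → VN m N → ℂ, E = fun g x => F1 g x - (t : ℂ) * F g x :=
    ⟨_, rfl⟩
  have hE : HecA m N T E lam := by
    rw [hEd]
    exact hec_lin hF1.toHecA hF.toHecA _
  have hEe : ∀ g x, E g x = F1 g x - (t : ℂ) * F g x := fun g x => by rw [hEd]
  have hnE : nU D E ≤ (t / 10) ^ 2 := by
    have h1 := nU_lint hV hS hE (w := 1) (by simp)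
    simp only [mul_one] at h1
    have h2 := hA N T D hS F lam hF.toHecA hn P δ hL hP hδ hδ2 e0
    have h3 : ENNReal.ofReal (nU D E) ≤ ENNReal.ofReal ((t / 10) ^ 2) := by
      unfold nU
      rw [h1]
      refine le_trans (le_of_eq ?_) h2
      refine Finset.sum_congr rfl fun x _ => ?_
      congr 1
      funext z
      rw [hEe, hF1d]
    exact (ENNReal.ofReal_le_ofReal_iff (by positivity)).1 h3
  have hnE0 : 0 ≤ nU D E := Finset.sum_nonneg fun x _ => integral_nonneg fun z => by positivity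
  -- integrability
  have i1 : ∀ {G : Mat m → VN m N → ℂ}, HecA m N T G lam → ∀ x,
      Integrable (fun z : V m => ‖G (mt z) x‖ ^ 2) ((hm m).restrict D) := by
    intro G hG x
    have h := int_tr hV hS hG (w := 1) (by simp) x
    simpa only [mul_one] using h
  -- the norm of the convolution
  have hn1 : 81 / 100 * t ^ 2 ≤ nU D F1 := by
    have h1 : t ^ 2 * nU D F ≤ 10 / 9 * nU D F1 + 10 * nU D E := by
      unfold nU
      rw [Finset.mul_sum, Finset.mul_sum, Finset.mul_sum, ← Finset.sum_add_distrib]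
      refine Finset.sum_le_sum fun x _ => ?_
      rw [← integral_const_mul, ← integral_const_mul, ← integral_const_mul,
        ← integral_add ((i1 hF1.toHecA x).const_mul _) ((i1 hE x).const_mul _)]
      refine integral_mono ((i1 hF.toHecA x).const_mul _)
        (((i1 hF1.toHecA x).const_mul _).add ((i1 hE x).const_mul _)) fun z => ?_
      show t ^ 2 * ‖F (mt z) x‖ ^ 2 ≤ 10 / 9 * ‖F1 (mt z) x‖ ^ 2 + 10 * ‖E (mt z) x‖ ^ 2
      have h2 : (t : ℂ) * F (mt z) x = F1 (mt z) x - E (mt z) x := by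
        rw [hEe]
        ring
      have h3 : t * ‖F (mt z) x‖ ≤ ‖F1 (mt z) x‖ + ‖E (mt z) x‖ := by
        have h4 : t * ‖F (mt z) x‖ = ‖(t : ℂ) * F (mt z) x‖ := by
          rw [norm_mul, Complex.norm_real, Real.norm_of_nonneg ht0.le]
        rw [h4, h2]
        exact norm_sub_le _ _
      have h5 : (t * ‖F (mt z) x‖) ^ 2 ≤ (‖F1 (mt z) x‖ + ‖E (mt z) x‖) ^ 2 :=
        pow_le_pow_left₀ (by positivity) h3 2
      nlinarith [sq_nonneg (‖F1 (mt z) x‖ - 9 * ‖E (mt z) x‖)]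
    rw [hn] at h1
    nlinarith
  have hnp : 0 < nU D F1 := lt_of_lt_of_le (by positivity) hn1
  -- the coefficient function
  have key : ∀ z : Mat m, sz (z - 1) ≤ δ →
      ‖c1 D F1 z - (nU D F1 : ℂ)‖ ≤ 1 / 4 * nU D F1 := by
    intro w hw
    obtain ⟨hwd, hwi⟩ := inv_near hm1 hw (by linarith)
    have hwid : (w⁻¹).det ≠ 0 := det_inv_ne hwd
    have hs0 : 0 ≤ sz (w⁻¹ - 1) := sz_nn _
    have h1 := c1_sub hV hS hF1.toHecA hwd (t := 4) (by norm_num)
    have h2 := hL w⁻¹ (by nlinarith)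
    have h3 : (P * sz (w⁻¹ - 1)) ^ 2 ≤ (1 / 200) ^ 2 := by
      refine pow_le_pow_left₀ (by positivity) ?_ 2
      calc P * sz (w⁻¹ - 1) ≤ P * (2 * δ) := mul_le_mul_of_nonneg_left hwi hP
        _ ≤ 1 / 200 := by linarith
    have h5 := nU_tr hV hM hRTI hALU hS hE hwid
    have h4 : ∑ x, ∫ z in D, ‖F1 ((mt z : Mat m) * w⁻¹) x - F1 (mt z) x‖ ^ 2 ∂(hm m) ≤
        11 * t ^ 2 * (∑ x, ∫ z in D, ‖F ((mt z : Mat m) * w⁻¹) x - F (mt z) x‖ ^ 2 ∂(hm m)) +
          (11 / 5 * (∑ x, ∫ z in D, ‖E ((mt z : Mat m) * w⁻¹) x‖ ^ 2 ∂(hm m)) +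
            11 / 5 * (∑ x, ∫ z in D, ‖E (mt z) x‖ ^ 2 ∂(hm m))) := by
      rw [Finset.mul_sum, Finset.mul_sum, Finset.mul_sum, ← Finset.sum_add_distrib,
        ← Finset.sum_add_distrib]
      refine Finset.sum_le_sum fun x _ => ?_
      have j1 := int_df hV hS hF.toHecA hwid x
      have j2 := int_tr hV hS hE hwid x
      have j3 := i1 hE x
      have j4 : Integrable (fun z : V m => 11 / 5 * ‖E ((mt z : Mat m) * w⁻¹) x‖ ^ 2 +
          11 / 5 * ‖E (mt z) x‖ ^ 2) ((hm m).restrict D) :=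
        (j2.const_mul _).add (j3.const_mul _)
      rw [← integral_const_mul, ← integral_const_mul, ← integral_const_mul,
        ← integral_add (j2.const_mul _) (j3.const_mul _),
        ← integral_add (j1.const_mul _) j4]
      refine integral_mono (int_df hV hS hF1.toHecA hwid x)
        ((j1.const_mul _).add j4) fun z => ?_
      show ‖F1 ((mt z : Mat m) * w⁻¹) x - F1 (mt z) x‖ ^ 2 ≤
        11 * t ^ 2 * ‖F ((mt z : Mat m) * w⁻¹) x - F (mt z) x‖ ^ 2 +
          (11 / 5 * ‖E ((mt z : Mat m) * w⁻¹) x‖ ^ 2 + 11 / 5 * ‖E (mt z) x‖ ^ 2)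
      have k1 : F1 ((mt z : Mat m) * w⁻¹) x - F1 (mt z) x =
          (t : ℂ) * (F ((mt z : Mat m) * w⁻¹) x - F (mt z) x) +
            (E ((mt z : Mat m) * w⁻¹) x - E (mt z) x) := by
        rw [hEe, hEe]
        ring
      have k2 : ‖F1 ((mt z : Mat m) * w⁻¹) x - F1 (mt z) x‖ ≤
          t * ‖F ((mt z : Mat m) * w⁻¹) x - F (mt z) x‖ +
            (‖E ((mt z : Mat m) * w⁻¹) x‖ + ‖E (mt z) x‖) := by
        rw [k1]
        refine (norm_add_le _ _).trans (add_le_add (le_of_eq ?_) (norm_sub_le _ _))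
        rw [norm_mul, Complex.norm_real, Real.norm_of_nonneg ht0.le]
      have k3 := pow_le_pow_left₀ (norm_nonneg _) k2 2
      refine k3.trans ?_
      generalize ‖F ((mt z : Mat m) * w⁻¹) x - F (mt z) x‖ = a
      generalize ‖E ((mt z : Mat m) * w⁻¹) x‖ = b
      generalize ‖E (mt z) x‖ = c
      nlinarith [sq_nonneg (10 * (t * a) - (b + c)), sq_nonneg (b - c)]
    have h6 : ∑ x, ∫ z in D, ‖E (mt z) x‖ ^ 2 ∂(hm m) = nU D E := rfl
    rw [h5, h6] at h4
    have h7 : ∑ x, ∫ z in D, ‖F1 ((mt z : Mat m) * w⁻¹) x - F1 (mt z) x‖ ^ 2 ∂(hm m) ≤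
        4443 / 100000 * t ^ 2 := by
      refine h4.trans ?_
      have h8 : 11 * t ^ 2 * (∑ x, ∫ z in D,
          ‖F ((mt z : Mat m) * w⁻¹) x - F (mt z) x‖ ^ 2 ∂(hm m)) ≤
          11 * t ^ 2 * (1 / 200) ^ 2 :=
        mul_le_mul_of_nonneg_left (h2.trans h3) (by positivity)
      nlinarith
    rw [show (4 : ℝ)⁻¹ = 1 / 4 by norm_num] at h1
    refine h1.trans ?_
    nlinarith
  -- the normalised form
  obtain ⟨r, hr⟩ : ∃ r : ℝ, r = (Real.sqrt (nU D F1))⁻¹ := ⟨_, rfl⟩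
  have hsq : 0 < Real.sqrt (nU D F1) := Real.sqrt_pos.2 hnp
  have hr0 : 0 < r := by
    rw [hr]
    positivity
  have hr2 : r ^ 2 * nU D F1 = 1 := by
    rw [hr, inv_pow, Real.sq_sqrt hnp.le, inv_mul_cancel₀ hnp.ne']
  have hF2 : CusB m N T (fun g x => (r : ℂ) * F1 g x) lam := cus_smul hF1 _
  have hn2 : nU D (fun g x => (r : ℂ) * F1 g x) = 1 := by
    rw [← hr2]
    unfold nU
    rw [Finset.mul_sum]
    refine Finset.sum_congr rfl fun x _ => ?_
    rw [← integral_const_mul]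
    congr 1
    funext z
    rw [norm_mul, Complex.norm_real, Real.norm_of_nonneg hr0.le, mul_pow]
  refine ⟨fun g x => (r : ℂ) * F1 g x, hF2, dcy_smul hDc _, ?_, hn2, ?_⟩
  · refine (hNZU m N T D hS _ lam hF2.toHecA).2 ?_
    rw [hn2]
    exact one_pos
  · intro z hz
    have h1 : c1 D (fun g x => (r : ℂ) * F1 g x) z = ((r ^ 2 : ℝ) : ℂ) * c1 D F1 z := by
      unfold c1
      rw [Finset.mul_sum]
      refine Finset.sum_congr rfl fun x _ => ?_
      rw [← integral_const_mul]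
      congr 1
      funext v
      show (r : ℂ) * F1 _ x * (starRingEnd ℂ) ((r : ℂ) * F1 _ x) = _
      rw [map_mul, Complex.conj_ofReal]
      push_cast
      ring
    have h2 : c1 D (fun g x => (r : ℂ) * F1 g x) z - 1 =
        ((r ^ 2 : ℝ) : ℂ) * (c1 D F1 z - (nU D F1 : ℂ)) := by
      rw [h1, mul_sub, ← Complex.ofReal_mul, hr2, Complex.ofReal_one]
    rw [h2, norm_mul, Complex.norm_real, Real.norm_of_nonneg (by positivity)]
    calc r ^ 2 * ‖c1 D F1 z - (nU D F1 : ℂ)‖ ≤ r ^ 2 * (1 / 4 * nU D F1) :=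
          mul_le_mul_of_nonneg_left (key z hz) (by positivity)
      _ = 1 / 4 * (r ^ 2 * nU D F1) := by ring
      _ = 1 / 4 := by rw [hr2, mul_one]

end Pool.Agent.H74.GW
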